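import Pool.Agent.H500R2.EO.Aper

/-!
Symmetric sets whose `s`-fold sumset is not the whole group (Kneser's theorem).
-/

set_option autoImplicit false

namespace H14CR

open Finset
open scoped Pointwise
open Pool.Agent.Helper591.Kneser Pool.Agent.H500R2.EO

section

variable {G : Type} [AddCommGroup G] [Fintype G] [DecidableEq G]

/-- In a group of odd order a symmetric set that contains `0` has odd cardinality. -/
theorem odd_card_of_symm (hG : Odd (Fintype.card G)) (S : Finset G) (h0 : (0 : G) ∈ S)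
    (hS : ∀ x ∈ S, -x ∈ S) : Odd S.card := by
  have hfix : ∀ x : G, -x = x → x = 0 := by
    intro x hx
    have h2 : 2 • x = 0 := by
      rw [two_nsmul]
      nth_rewrite 1 [← hx]
      exact neg_add_cancel x
    have h3 : addOrderOf x ∣ 2 := addOrderOf_dvd_of_nsmul_eq_zero h2
    have h4 : addOrderOf x ∣ Fintype.card G := addOrderOf_dvd_card
    rcases (Nat.dvd_prime Nat.prime_two).1 h3 with h5 | h5
    · exact AddMonoid.addOrderOf_eq_one_iff.1 h5
    · rw [h5] at h4
      exact absurd (even_iff_two_dvd.2 h4) (Nat.not_even_iff_odd.2 hG)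
  have h1 : ∑ x ∈ S.erase 0, (1 : ZMod 2) = 0 := by
    apply sum_involution (fun x _ => -x)
    · intro x _
      decide
    · intro x hx _ hxx
      exact (mem_erase.1 hx).1 (hfix x hxx)
    · intro x _
      exact neg_neg x
    · intro x hx
      rw [mem_erase] at hx ⊢
      exact ⟨fun h => hx.1 (neg_eq_zero.1 h), hS x hx.2⟩
  rw [sum_const, nsmul_eq_mul, mul_one, ZMod.natCast_eq_zero_iff] at h1
  have h2 : (S.erase 0).card + 1 = S.card := card_erase_add_one h0
  rw [← h2]
  exact (even_iff_two_dvd.2 h1).add_one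

theorem sm_symm (S : Finset G) (hS : ∀ x ∈ S, -x ∈ S) (k : ℕ) : ∀ x ∈ sm k S, -x ∈ sm k S := by
  induction k with
  | zero =>
    intro x hx
    rw [sm_zero, mem_singleton] at hx ⊢
    rw [hx, neg_zero]
  | succ k ih =>
    intro x hx
    rw [sm_succ, mem_add] at hx ⊢
    obtain ⟨a, ha, b, hb, rfl⟩ := hx
    exact ⟨-a, ih a ha, -b, hS b hb, by abel⟩

theorem zero_mem_sm (S : Finset G) (h0 : (0 : G) ∈ S) (k : ℕ) : (0 : G) ∈ sm k S := by
  induction k with
  | zero =>
    rw [sm_zero]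
    exact mem_singleton_self 0
  | succ k ih =>
    rw [sm_succ, mem_add]
    exact ⟨0, ih, 0, h0, add_zero 0⟩

/-- The structure of symmetric sets with `s B ≠ G`: for some divisor `d` of the order one has
`|B| d ≤ m |G|` with `s (m - 1) ≤ d - 2`, and `m` is odd and `s (m - 1) ≤ d - 3` if `|G|` is odd. -/
theorem exists_divisor (B : Finset G) (h0 : (0 : G) ∈ B) (hB : ∀ x ∈ B, -x ∈ B) (s : ℕ)
    (hs : 1 ≤ s) (hne : sm s B ≠ univ) :
    ∃ d m : ℕ, 2 ≤ d ∧ d ∣ Fintype.card G ∧ 1 ≤ m ∧ B.card * d ≤ m * Fintype.card G ∧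
      s * m + 2 ≤ d + s ∧ (Odd (Fintype.card G) → Odd m ∧ Odd d ∧ s * m + 3 ≤ d + s) := by
  classical
  obtain ⟨G', iG, iF, iD, π, hsurj, hne', hst, hcardX⟩ := exists_aperiodic B s hne
  have h0' : (0 : G') ∈ B.image π := mem_image.2 ⟨0, h0, map_zero π⟩
  have hB' : ∀ x ∈ B.image π, -x ∈ B.image π := by
    intro x hx
    obtain ⟨y, hy, rfl⟩ := mem_image.1 hx
    exact mem_image.2 ⟨-y, hB y hy, map_neg π y⟩
  have hk := kneser_sm (⟨0, h0'⟩ : (B.image π).Nonempty) s hs hst
  have hlt : (sm s (B.image π)).card < Fintype.card G' := by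
    rw [← Finset.card_univ]
    apply Finset.card_lt_card
    exact ⟨Finset.subset_univ _, fun h => hne' (Finset.Subset.antisymm (Finset.subset_univ _) h)⟩
  have hpos : 1 ≤ (sm s (B.image π)).card := card_pos.2 ⟨0, zero_mem_sm _ h0' s⟩
  have hdvd : Fintype.card G' ∣ Fintype.card G := by
    have := AddSubgroup.card_dvd_of_surjective π hsurj
    rwa [Nat.card_eq_fintype_card, Nat.card_eq_fintype_card] at this
  have hm : 1 ≤ (B.image π).card := card_pos.2 ⟨0, h0'⟩
  refine ⟨Fintype.card G', (B.image π).card, by omega, hdvd, hm, hcardX B, by omega, ?_⟩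
  intro hodd
  have hoddd : Odd (Fintype.card G') := Odd.of_dvd_nat hodd hdvd
  have h1 := odd_card_of_symm hoddd _ h0' hB'
  have h2 := odd_card_of_symm hoddd _ (zero_mem_sm _ h0' s) (sm_symm _ hB' s)
  refine ⟨h1, hoddd, ?_⟩
  obtain ⟨a, ha⟩ := h2
  obtain ⟨b, hb⟩ := hoddd
  omega

end

end H14CR
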