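import Pool.Agent.H14CR.Core

/-!
The signed `[0, s]`-critical number of every cyclic group.
-/

set_option autoImplicit false

namespace H14CR

open Finset
open scoped Pointwise
open Pool.Agent.Helper591.Kneser Pool.Agent.H500R2.EO

/-- `x` is a signed sum of exactly `h` terms of `A`. -/
def InSig (n h : ℕ) (A : Finset (ZMod n)) (x : ZMod n) : Prop :=
  ∃ l : ZMod n → ℤ, ∑ a ∈ A, (l a).natAbs = h ∧ ∑ a ∈ A, l a • a = x

/-- `x` is a signed sum of at most `s` terms of `A`. -/
def InSigLe (n s : ℕ) (A : Finset (ZMod n)) (x : ZMod n) : Prop := ∃ h ≤ s, InSig n h A x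

/-- The function `v`. -/
def vv (n h d : ℕ) : ℤ := (2 * (((d : ℤ) - 2) / (2 * h)) + 1) * ((n / d : ℕ) : ℤ)

theorem inSigLe_mono {n s : ℕ} {A B : Finset (ZMod n)} (h : A ⊆ B) {x : ZMod n}
    (hx : InSigLe n s A x) : InSigLe n s B x := by
  classical
  obtain ⟨k, hk, l, hl, hsum⟩ := hx
  refine ⟨k, hk, fun a => if a ∈ A then l a else 0, ?_, ?_⟩
  · rw [← hl, ← sum_subset h]
    · exact sum_congr rfl fun a ha => by simp only [if_pos ha]
    · intro a _ ha
      simp only [if_neg ha, Int.natAbs_zero]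
  · rw [← hsum, ← sum_subset h]
    · exact sum_congr rfl fun a ha => by simp only [if_pos ha]
    · intro a _ ha
      simp only [if_neg ha, zero_smul]

theorem inSigLe_add {n s : ℕ} {A : Finset (ZMod n)} {x a : ZMod n} (ha : a ∈ A) (e : ℤ)
    (he : e.natAbs = 1) (hx : InSigLe n s A x) : InSigLe n (s + 1) A (x + e • a) := by
  classical
  obtain ⟨k, hk, l, hl, hsum⟩ := hx
  refine ⟨∑ b ∈ A, (l b + if b = a then e else 0).natAbs, ?_, fun b => l b + if b = a then e else 0,
    rfl, ?_⟩
  · have h1 : ∑ b ∈ A, (l b + if b = a then e else 0).natAbs ≤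
        ∑ b ∈ A, ((l b).natAbs + if b = a then 1 else 0) := by
      apply sum_le_sum
      intro b _
      by_cases hb : b = a
      · rw [if_pos hb, if_pos hb, ← he]
        exact Int.natAbs_add_le _ _
      · rw [if_neg hb, if_neg hb, add_zero, add_zero]
    rw [sum_add_distrib, sum_ite_eq' A a, if_pos ha, hl] at h1
    omega
  · simp only [add_smul, sum_add_distrib]
    rw [hsum]
    congr 1
    have h1 : ∀ b ∈ A, (if b = a then e else 0) • b = if b = a then e • a else 0 := by
      intro b _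
      by_cases hb : b = a
      · rw [if_pos hb, if_pos hb, hb]
      · rw [if_neg hb, if_neg hb, zero_smul]
    rw [sum_congr rfl h1, sum_ite_eq' A a, if_pos ha]

theorem inSigLe_succ {n s : ℕ} {A : Finset (ZMod n)} {x : ZMod n} (hx : InSigLe n s A x) :
    InSigLe n (s + 1) A x := by
  obtain ⟨k, hk, h⟩ := hx
  exact ⟨k, by omega, h⟩

/-- All elements of the `s`-fold sumset of `A ∪ -A ∪ {0}` are signed sums of at most `s` terms. -/
theorem sm_sub {n : ℕ} [NeZero n] (A : Finset (ZMod n)) (s : ℕ) :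
    ∀ x ∈ sm s (insert 0 (A ∪ A.image fun a => -a)), InSigLe n s A x := by
  induction s with
  | zero =>
    intro x hx
    rw [sm_zero, mem_singleton] at hx
    subst hx
    refine ⟨0, le_refl _, fun _ => 0, ?_, ?_⟩
    · simp
    · simp
  | succ s ih =>
    intro x hx
    rw [sm_succ, mem_add] at hx
    obtain ⟨y, hy, b, hb, rfl⟩ := hx
    have h1 := ih y hy
    rw [mem_insert, mem_union, mem_image] at hb
    rcases hb with rfl | hb | ⟨a, ha, rfl⟩
    · rw [add_zero]
      exact inSigLe_succ h1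
    · have := inSigLe_add hb 1 rfl h1
      rwa [one_smul] at this
    · have := inSigLe_add ha (-1) rfl h1
      rwa [neg_smul, one_smul] at this

/-- Upper bound. -/
theorem upper {n s : ℕ} (hn : 0 < n) (hs : 0 < s) (A : Finset (ZMod n)) (w : ℤ)
    (hw : ∀ d ∈ n.divisors, vv n s d ≤ w) (hA : w + 1 ≤ A.card) (x : ZMod n) :
    InSigLe n s A x := by
  classical
  have : NeZero n := ⟨hn.ne'⟩
  by_contra hx
  set B : Finset (ZMod n) := insert 0 (A ∪ A.image fun a => -a) with hB
  have h0 : (0 : ZMod n) ∈ B := mem_insert_self _ _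
  have hsym : ∀ y ∈ B, -y ∈ B := by
    intro y hy
    rw [hB, mem_insert, mem_union, mem_image] at hy ⊢
    rcases hy with rfl | hy | ⟨a, ha, rfl⟩
    · exact Or.inl neg_zero
    · exact Or.inr (Or.inr ⟨y, hy, rfl⟩)
    · rw [neg_neg]
      exact Or.inr (Or.inl ha)
  have hne : sm s B ≠ univ := by
    intro h
    exact hx (sm_sub A s x (by rw [← hB, h]; exact mem_univ x))
  obtain ⟨d, m, hd, hdn, hm, hcard, hsm, hodd⟩ := exists_divisor B h0 hsym s hs hne
  rw [ZMod.card] at hdn hcard hodd
  have hAB : A.card ≤ B.card :=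
    card_le_card (subset_trans subset_union_left (subset_insert _ _))
  obtain ⟨c, hc⟩ := hdn
  have hcpos : 0 < c := by
    rcases Nat.eq_zero_or_pos c with h | h
    · rw [h, mul_zero] at hc
      omega
    · exact h
  have hndc : n / d = c := by
    rw [hc]
    exact Nat.mul_div_cancel_left _ (by omega)
  have hBmc : B.card ≤ m * c := by
    have h1 : B.card * d ≤ (m * c) * d := by
      calc B.card * d ≤ m * n := hcard
        _ = (m * c) * d := by rw [hc]; ring
    exact Nat.le_of_mul_le_mul_right h1 (by omega)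
  rcases Nat.even_or_odd n with he | ho
  · -- even order
    by_cases hs1 : s = 1
    · subst hs1
      have h1 := hw n (Nat.mem_divisors_self n hn.ne')
      unfold vv at h1
      rw [Nat.div_self hn] at h1
      obtain ⟨e, he⟩ := he
      have h2 : m * c ≤ n - c := by
        have h3 : m ≤ d - 1 := by omega
        calc m * c ≤ (d - 1) * c := Nat.mul_le_mul_right _ h3
          _ = n - c := by rw [Nat.sub_mul, one_mul, ← hc]
      push_cast at h1
      omega
    · have h1 := hw 2 (Nat.mem_divisors.2 ⟨even_iff_two_dvd.1 he, hn.ne'⟩)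
      unfold vv at h1
      have h2 : 2 * m ≤ d := by
        obtain ⟨t, ht⟩ : ∃ t, s = t + 2 := ⟨s - 2, by omega⟩
        rw [ht] at hsm
        have h3 : (t + 2) * m = t * m + 2 * m := by ring
        have h4 : t ≤ t * m := Nat.le_mul_of_pos_right t hm
        omega
      have h3 : 2 * (m * c) ≤ n := by
        calc 2 * (m * c) = (2 * m) * c := by ring
          _ ≤ d * c := Nat.mul_le_mul_right _ h2
          _ = n := hc.symm
      simp only [Nat.cast_ofNat, sub_self, Int.zero_ediv, mul_zero, zero_add, one_mul] at h1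
      omega
  · -- odd order
    obtain ⟨⟨r, hr⟩, -, h3⟩ := hodd ho
    have h1 := hw d (Nat.mem_divisors.2 ⟨⟨c, hc⟩, hn.ne'⟩)
    unfold vv at h1
    rw [hndc] at h1
    have h4 : (r : ℤ) ≤ ((d : ℤ) - 2) / (2 * s) := by
      rw [Int.le_ediv_iff_mul_le (by positivity)]
      have h5 : s * m = 2 * (r * s) + s := by rw [hr]; ring
      have h6 : (r : ℤ) * (2 * s) = 2 * ((r * s : ℕ) : ℤ) := by push_cast; ring
      rw [h6]
      omega
    have h5 : ((m * c : ℕ) : ℤ) ≤ (2 * (((d : ℤ) - 2) / (2 * s)) + 1) * (c : ℤ) := by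
      push_cast
      apply mul_le_mul_of_nonneg_right _ (by positivity)
      rw [hr]
      push_cast
      linarith
    omega

/-- The witness for the lower bound. -/
noncomputable def wit (n d r : ℕ) : Finset (ZMod n) :=
  ((Icc (-(r : ℤ)) r) ×ˢ (range (n / d))).image fun p => ((p.1 + d * p.2 : ℤ) : ZMod n)

theorem wit_card {n d r : ℕ} (hd : d ∣ n) (hr : 2 * r + 1 ≤ d) :
    (wit n d r).card = (2 * r + 1) * (n / d) := by
  unfold wit
  obtain ⟨c, hc⟩ := hd
  have hd0 : 0 < d := by omega
  have hndc : n / d = c := by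
    rw [hc]
    exact Nat.mul_div_cancel_left _ hd0
  rw [card_image_of_injOn]
  · rw [card_product, Int.card_Icc, card_range]
    congr 1
    omega
  · rintro ⟨i, j⟩ hij ⟨i', j'⟩ hij' h
    rw [mem_coe, mem_product, mem_Icc, mem_range, hndc] at hij hij'
    simp only at hij hij' h
    obtain ⟨⟨a1, a2⟩, a3⟩ := hij
    obtain ⟨⟨b1, b2⟩, b3⟩ := hij'
    rw [ZMod.intCast_eq_intCast_iff_dvd_sub] at h
    have hdiff : (i' + (d : ℤ) * j') - (i + d * j) = 0 := by
      apply Int.eq_zero_of_abs_lt_dvd h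
      have e1 : (d : ℤ) * j ≤ d * (c - 1) := by
        apply mul_le_mul_of_nonneg_left _ (by positivity)
        omega
      have e2 : (d : ℤ) * j' ≤ d * (c - 1) := by
        apply mul_le_mul_of_nonneg_left _ (by positivity)
        omega
      have e3 : (d : ℤ) * (c - 1) = n - d := by
        rw [hc]
        push_cast
        ring
      have e4 : (0 : ℤ) ≤ (d : ℤ) * j := by positivity
      have e5 : (0 : ℤ) ≤ (d : ℤ) * j' := by positivity
      rw [abs_lt]
      constructor
      · omega
      · omega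
    have hmod : (d : ℤ) ∣ i' - i := by
      have : i' - i = d * ((j : ℤ) - j') := by linarith
      exact ⟨_, this⟩
    have hii : i' - i = 0 := by
      apply Int.eq_zero_of_abs_lt_dvd hmod
      rw [abs_lt]
      constructor
      · omega
      · omega
    have hjj : (d : ℤ) * ((j' : ℤ) - j) = 0 := by linarith
    have hjj' : (j' : ℤ) = j := by
      rcases mul_eq_zero.1 hjj with h1 | h1
      · omega
      · omega
    have : j' = j := by exact_mod_cast hjj'
    have hi : i' = i := by omega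
    rw [this, hi]

/-- The signed sums of at most `s` terms of the witness miss a residue. -/
theorem wit_miss {n d r s : ℕ} (hd : d ∣ n) (x : ZMod n)
    (hx : InSigLe n s (wit n d r) x) : ∃ i : ℤ, |i| ≤ r * s ∧
      ZMod.castHom hd (ZMod d) x = (i : ZMod d) := by
  classical
  obtain ⟨h, hh, l, hl, hsum⟩ := hx
  have hres : ∀ a ∈ wit n d r, ∃ t : ℤ, |t| ≤ r ∧ ZMod.castHom hd (ZMod d) a = (t : ZMod d) := by
    intro a ha
    unfold wit at ha
    obtain ⟨⟨i, j⟩, hij, rfl⟩ := mem_image.1 ha
    rw [mem_product, mem_Icc] at hij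
    refine ⟨i, abs_le.2 hij.1, ?_⟩
    rw [map_intCast]
    push_cast
    rw [ZMod.natCast_self, zero_mul, add_zero]
  choose! t ht1 ht2 using hres
  refine ⟨∑ a ∈ wit n d r, l a * t a, ?_, ?_⟩
  · calc |∑ a ∈ wit n d r, l a * t a| ≤ ∑ a ∈ wit n d r, |l a * t a| := abs_sum_le_sum_abs _ _
      _ ≤ ∑ a ∈ wit n d r, ((l a).natAbs : ℤ) * r := by
          apply sum_le_sum
          intro a ha
          rw [abs_mul, Int.natCast_natAbs]
          exact mul_le_mul_of_nonneg_left (ht1 a ha) (abs_nonneg _)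
      _ = (h : ℤ) * r := by
          rw [← sum_mul, ← hl]
          push_cast
          rfl
      _ ≤ r * s := by
          rw [mul_comm]
          apply mul_le_mul_of_nonneg_left _ (by positivity)
          exact_mod_cast hh
  · rw [← hsum, map_sum]
    push_cast
    apply sum_congr rfl
    intro a ha
    rw [map_zsmul, ht2 a ha, zsmul_eq_mul]

/-- Lower bound. -/
theorem lower {n s d : ℕ} (hn : 0 < n) (hs : 0 < s) (hd : d ∈ n.divisors) (m : ℕ)
    (hm : (m : ℤ) ≤ vv n s d) :
    ∃ A : Finset (ZMod n), A.card = m ∧ ∃ x, ¬ InSigLe n s A x := by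
  have hdn := Nat.dvd_of_mem_divisors hd
  have hdpos : 0 < d := Nat.pos_of_mem_divisors hd
  have hcpos : 0 < n / d := Nat.div_pos (Nat.le_of_dvd hn hdn) hdpos
  have hd2 : 2 ≤ d := by
    by_contra hcon
    have hd1 : d = 1 := by omega
    subst hd1
    unfold vv at hm
    have h1 : (((1 : ℕ) : ℤ) - 2) / (2 * (s : ℤ)) ≤ -1 := by
      have h2 : (((1 : ℕ) : ℤ) - 2) / (2 * (s : ℤ)) < 0 :=
        Int.ediv_neg_of_neg_of_pos (by norm_num) (by positivity)
      omega
    have h3 : (2 * ((((1 : ℕ) : ℤ) - 2) / (2 * (s : ℤ))) + 1) * ((n / 1 : ℕ) : ℤ) < 0 := by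
      apply mul_neg_of_neg_of_pos
      · omega
      · exact_mod_cast hcpos
    omega
  obtain ⟨r, hr⟩ : ∃ r : ℕ, (((d : ℤ) - 2) / (2 * s)) = r := by
    refine ⟨(((d : ℤ) - 2) / (2 * s)).toNat, (Int.toNat_of_nonneg ?_).symm⟩
    apply Int.ediv_nonneg
    · omega
    · positivity
  have hrs : 2 * (r * s) + 2 ≤ d := by
    have h1 : (r : ℤ) * (2 * s) ≤ (d : ℤ) - 2 := by
      rw [← hr]
      exact Int.ediv_mul_le _ (by positivity)
    have h2 : (r : ℤ) * (2 * s) = 2 * ((r * s : ℕ) : ℤ) := by push_cast; ring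
    rw [h2] at h1
    omega
  have hrr : 2 * r + 1 ≤ d := by
    have : r ≤ r * s := Nat.le_mul_of_pos_right r hs
    omega
  have hcard := wit_card hdn hrr
  unfold vv at hm
  rw [hr] at hm
  have hm' : m ≤ (wit n d r).card := by
    rw [hcard]
    have : (m : ℤ) ≤ (((2 * r + 1) * (n / d) : ℕ) : ℤ) := by
      push_cast
      push_cast at hm
      exact hm
    exact_mod_cast this
  obtain ⟨A, hA, hAm⟩ := exists_subset_card_eq hm'
  refine ⟨A, hAm, ((r * s + 1 : ℕ) : ZMod n), fun hx => ?_⟩
  obtain ⟨i, hi, he⟩ := wit_miss hdn _ (inSigLe_mono hA hx)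
  rw [map_natCast] at he
  have h1 : (((r * s + 1 : ℕ) : ℤ) : ZMod d) = (i : ZMod d) := by
    rw [← he]
    push_cast
    rfl
  rw [ZMod.intCast_eq_intCast_iff_dvd_sub] at h1
  have h2 : i - ((r * s + 1 : ℕ) : ℤ) = 0 := by
    apply Int.eq_zero_of_abs_lt_dvd h1
    rw [abs_le] at hi
    have h3 : (r : ℤ) * s = ((r * s : ℕ) : ℤ) := by push_cast; rfl
    rw [h3] at hi
    rw [abs_lt]
    push_cast at hi ⊢
    constructor
    · have : (2 * ((r : ℤ) * s) + 2) ≤ d := by exact_mod_cast hrs
      linarith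
    · have : (2 * ((r : ℤ) * s) + 2) ≤ d := by exact_mod_cast hrs
      have h5 : (0 : ℤ) ≤ (r : ℤ) * s := by positivity
      linarith
  rw [abs_le] at hi
  push_cast at h2
  linarith [hi.2]

end H14CR
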