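import Pool.Agent.H14CR.Main

set_option autoImplicit false

namespace H14CR

/-- The values over which the maximum `v` is taken. -/
def vals (n h : ℕ) : Set ℤ :=
  {y | ∃ d ∈ n.divisors, y = (2 * (((d : ℤ) - 2) / (2 * h)) + 1) * ((n / d : ℕ) : ℤ)}

theorem vals_eq (n h : ℕ) : vals n h = ((n.divisors.image (vv n h) : Finset ℤ) : Set ℤ) := by
  ext y
  rw [Finset.coe_image, Set.mem_image]
  constructor
  · rintro ⟨d, hd, rfl⟩
    exact ⟨d, hd, rfl⟩
  · rintro ⟨d, hd, rfl⟩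
    exact ⟨d, hd, rfl⟩

theorem sSup_spec (n h : ℕ) (hn : 0 < n) :
    (∀ d ∈ n.divisors, vv n h d ≤ sSup (vals n h)) ∧ ∃ d ∈ n.divisors, sSup (vals n h) = vv n h d := by
  have hbdd : BddAbove (vals n h) := by
    rw [vals_eq]
    exact Finset.bddAbove _
  have hne : (vals n h).Nonempty := ⟨_, 1, Nat.one_mem_divisors.2 hn.ne', rfl⟩
  refine ⟨fun d hd => le_csSup hbdd ⟨d, hd, rfl⟩, ?_⟩
  obtain ⟨d, hd, h1⟩ := Int.csSup_mem hne hbdd
  exact ⟨d, hd, h1⟩

/-- The maximum is at least `-1`. -/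
theorem neg_one_le (n h : ℕ) (hn : 0 < n) (hh : 0 < h) : -1 ≤ sSup (vals n h) := by
  obtain ⟨h1, -⟩ := sSup_spec n h hn
  have h2 := h1 n (Nat.mem_divisors_self n hn.ne')
  unfold vv at h2
  rw [Nat.div_self hn] at h2
  have h3 : -1 ≤ ((n : ℤ) - 2) / (2 * h) := by
    rw [Int.le_ediv_iff_mul_le (by positivity)]
    have : (1 : ℤ) ≤ n := by exact_mod_cast hn
    have : (1 : ℤ) ≤ h := by exact_mod_cast hh
    linarith
  push_cast at h2
  linarith

end H14CR
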